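import Mathlib

/-!
# The perturbation lemma

`A` is an invertible matrix with inverse `Q`, and `A(s) = A + ∑ s^(m f) C_f` with distinct exponents
`L ≤ m f < 2 L`. For some `s` in a large set the matrix `A(s)` is invertible, no prescribed nonzero entry of
`A` vanishes, and an entry of the adjugate is nonzero whenever the entry of `Q` is nonzero or an entry of one of the
matrices `Q C_f Q` is nonzero.
-/

set_option autoImplicit false
set_option linter.unusedSectionVars false

namespace Pool.Agent.Lib.MP_0087d5_lcF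

open Matrix Polynomial

section

variable {K : Type*} [Field K] {I : Type*} [Fintype I] [DecidableEq I]

/-- The determinant of a matrix of polynomials of degree at most `d`. -/
theorem natDegree_det_le' (M : Matrix I I K[X]) (d : ℕ) (h : ∀ i j, (M i j).natDegree ≤ d) :
    M.det.natDegree ≤ d * Fintype.card I := by
  rw [Matrix.det_apply]
  refine Polynomial.natDegree_sum_le_of_forall_le _ _ (fun σ _ => ?_)
  refine (Polynomial.natDegree_smul_le _ _).trans ?_
  refine (Polynomial.natDegree_prod_le _ _).trans ?_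
  refine (Finset.sum_le_card_nsmul _ _ d (fun i _ => h _ _)).trans ?_
  simp [mul_comm]

/-- The entries of the adjugate of a matrix of polynomials of degree at most `d`. -/
theorem natDegree_adj_le (M : Matrix I I K[X]) (d : ℕ) (h : ∀ i j, (M i j).natDegree ≤ d) (i j : I) :
    (M.adjugate i j).natDegree ≤ d * Fintype.card I := by
  rw [Matrix.adjugate_apply]
  refine natDegree_det_le' _ d (fun k l => ?_)
  by_cases hk : k = j
  · subst hk
    rw [Matrix.updateRow_self]
    by_cases hl : l = i
    · subst hl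
      simp
    · simp [Pi.single_eq_of_ne hl]
  · rw [Matrix.updateRow_ne hk]
    exact h k l

end

section

variable {K : Type*} [Field K] {I : Type*} [Fintype I] [DecidableEq I] {ι : Type*} [Fintype ι]

/-- The perturbed matrix, as a matrix of polynomials. -/
noncomputable def AP (A : Matrix I I K) (D : ι → Matrix I I K) (m : ι → ℕ) : Matrix I I K[X] :=
  A.map C + ∑ f, (X : K[X]) ^ m f • (D f).map C

theorem AP_eval (A : Matrix I I K) (D : ι → Matrix I I K) (m : ι → ℕ) (s : K) :
    (evalRingHom s).mapMatrix (AP A D m) = A + ∑ f, s ^ m f • D f := by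
  unfold AP
  rw [map_add, map_sum]
  congr 1
  · ext i j
    simp
  · refine Finset.sum_congr rfl (fun f _ => ?_)
    ext i j
    simp only [RingHom.mapMatrix_apply, Matrix.map_apply, Matrix.smul_apply, smul_eq_mul, coe_evalRingHom]
    rw [eval_mul, eval_pow, eval_X, eval_C]

theorem AP_entry_eval (A : Matrix I I K) (D : ι → Matrix I I K) (m : ι → ℕ) (s : K) (i j : I) :
    (AP A D m i j).eval s = (A + ∑ f, s ^ m f • D f) i j := by
  rw [← AP_eval]
  rfl

theorem AP_det_eval (A : Matrix I I K) (D : ι → Matrix I I K) (m : ι → ℕ) (s : K) :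
    (AP A D m).det.eval s = (A + ∑ f, s ^ m f • D f).det := by
  rw [← AP_eval, ← RingHom.map_det]
  rfl

theorem AP_adj_eval (A : Matrix I I K) (D : ι → Matrix I I K) (m : ι → ℕ) (s : K) (i j : I) :
    ((AP A D m).adjugate i j).eval s = (A + ∑ f, s ^ m f • D f).adjugate i j := by
  rw [← AP_eval, ← RingHom.map_adjugate]
  rfl

theorem AP_degree (A : Matrix I I K) (D : ι → Matrix I I K) (m : ι → ℕ) (d : ℕ) (h : ∀ f, m f ≤ d)
    (i j : I) : (AP A D m i j).natDegree ≤ d := by
  unfold AP
  rw [Matrix.add_apply, Matrix.sum_apply]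
  refine (Polynomial.natDegree_add_le _ _).trans (max_le ?_ ?_)
  · simp
  · refine Polynomial.natDegree_sum_le_of_forall_le _ _ (fun f _ => ?_)
    rw [Matrix.smul_apply, Matrix.map_apply, smul_eq_mul]
    refine (Polynomial.natDegree_mul_le).trans ?_
    rw [Polynomial.natDegree_C, add_zero]
    exact (Polynomial.natDegree_X_pow_le _).trans (h f)

/-- At `s = 0` the matrix is `A`. -/
theorem AP_zero (A : Matrix I I K) (D : ι → Matrix I I K) (m : ι → ℕ) (h : ∀ f, m f ≠ 0) :
    A + ∑ f, (0 : K) ^ m f • D f = A := by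
  rw [Finset.sum_eq_zero (fun f _ => by rw [zero_pow (h f), zero_smul]), add_zero]

theorem adj_ne_zero (A Q : Matrix I I K) (hAQ : A * Q = 1) (D : ι → Matrix I I K) (m : ι → ℕ) (L : ℕ)
    (hm : Function.Injective m) (hL : ∀ f, L ≤ m f) (hU : ∀ f, m f < 2 * L) (i j : I)
    (hT : Q i j ≠ 0 ∨ ∃ f, (Q * D f * Q) i j ≠ 0) : (AP A D m).adjugate i j ≠ 0 := by
  have hm0 : ∀ f, m f ≠ 0 := fun f => by have := hL f; have := hU f; omega
  have hdet : A.det ≠ 0 := by
    intro h0
    have := congrArg Matrix.det hAQ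
    rw [Matrix.det_mul, h0, zero_mul, Matrix.det_one] at this
    exact zero_ne_one this
  have hadj : A.adjugate = A.det • Q := by
    calc A.adjugate = A.adjugate * (A * Q) := by rw [hAQ, mul_one]
      _ = A.det • Q := by rw [← mul_assoc, Matrix.adjugate_mul, Matrix.smul_mul, one_mul]
  by_cases hQ : Q i j = 0
  swap
  · intro h0
    have h1 := AP_adj_eval A D m 0 i j
    rw [h0, AP_zero A D m hm0, hadj, Matrix.smul_apply, smul_eq_mul, eval_zero] at h1
    exact mul_ne_zero hdet hQ h1.symm
  · obtain ⟨f₀, hf⟩ := hT.resolve_left (by simpa using hQ)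
    intro h0
    have hQA : Q * A = 1 := mul_eq_one_comm.1 hAQ
    set d : K[X] := (AP A D m).det with hd
    set QP : Matrix I I K[X] := Q.map C with hQP
    set P1 : Matrix I I K[X] := ∑ f, (X : K[X]) ^ (m f - L) • (D f).map C with hP1
    have hAP : AP A D m = A.map C + (X : K[X]) ^ L • P1 := by
      unfold AP
      congr 1
      rw [hP1, Finset.smul_sum]
      refine Finset.sum_congr rfl (fun f _ => ?_)
      rw [smul_smul, ← pow_add, Nat.add_sub_cancel' (hL f)]
    have h1 : QP * AP A D m = 1 + (X : K[X]) ^ L • (QP * P1) := by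
      rw [hAP, mul_add, Matrix.mul_smul]
      congr 1
      rw [hQP, ← Matrix.map_mul, hQA]
      exact Matrix.map_one _ (map_zero _) (map_one _)
    have h2 : (AP A D m).adjugate + (X : K[X]) ^ L • (QP * P1 * (AP A D m).adjugate) = d • QP := by
      have h3 : QP * AP A D m * (AP A D m).adjugate = d • QP := by
        rw [mul_assoc, Matrix.mul_adjugate, Matrix.mul_smul, mul_one]
      rw [h1, add_mul, one_mul, Matrix.smul_mul] at h3
      exact h3
    set J : Matrix I I K[X] := (AP A D m).adjugate with hJ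
    have h4 : J = d • QP - (X : K[X]) ^ L • (QP * P1 * J) := eq_sub_of_add_eq h2
    have h5 : QP * P1 * J = d • (QP * P1 * QP) - (X : K[X]) ^ L • (QP * P1 * (QP * P1 * J)) := by
      conv_lhs => rw [h4]
      rw [mul_sub, Matrix.mul_smul, Matrix.mul_smul]
    have h6 := congrFun (congrFun h4 i) j
    rw [h5, Matrix.sub_apply, Matrix.smul_apply, Matrix.smul_apply, Matrix.sub_apply, Matrix.smul_apply,
      Matrix.smul_apply, h0] at h6
    have h7 : QP i j = 0 := by rw [hQP, Matrix.map_apply, hQ, map_zero]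
    rw [h7] at h6
    simp only [smul_eq_mul, mul_zero, zero_sub] at h6
    have h8 : d * (QP * P1 * QP) i j = (X : K[X]) ^ L * (QP * P1 * (QP * P1 * J)) i j := by
      have h9 : (X : K[X]) ^ L * (d * (QP * P1 * QP) i j -
          (X : K[X]) ^ L * (QP * P1 * (QP * P1 * J)) i j) = 0 := by
        have := h6.symm
        exact neg_eq_zero.1 this
      have h10 := (mul_eq_zero.1 h9).resolve_left (pow_ne_zero _ X_ne_zero)
      exact sub_eq_zero.1 h10
    have h11 : (X : K[X]) ^ L ∣ (QP * P1 * QP) i j := by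
      refine Prime.pow_dvd_of_dvd_mul_left prime_X L (a := d) ?_ ⟨_, h8⟩
      rw [X_dvd_iff, coeff_zero_eq_eval_zero, hd, AP_det_eval, AP_zero A D m hm0]
      exact hdet
    rw [X_pow_dvd_iff] at h11
    have h12 := h11 (m f₀ - L) (by have := hL f₀; have := hU f₀; omega)
    apply hf
    have h13 : (QP * P1 * QP) i j = ∑ f, (X : K[X]) ^ (m f - L) * C ((Q * D f * Q) i j) := by
      rw [hP1, Finset.mul_sum, Finset.sum_mul, Matrix.sum_apply]
      refine Finset.sum_congr rfl (fun f _ => ?_)
      rw [Matrix.mul_smul, Matrix.smul_mul, Matrix.smul_apply, smul_eq_mul, hQP, ← Matrix.map_mul,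
        ← Matrix.map_mul, Matrix.map_apply]
    rw [h13, finsetSum_coeff] at h12
    rw [Finset.sum_eq_single f₀] at h12
    · simpa using h12
    · intro f _ hff
      rw [coeff_X_pow_mul']
      by_cases hle : m f - L ≤ m f₀ - L
      · rw [if_pos hle, coeff_C, if_neg]
        intro h14
        apply hff
        apply hm
        have := hL f
        have := hL f₀
        omega
      · rw [if_neg hle]
    · intro h
      exact absurd (Finset.mem_univ _) h

/-- **The perturbation lemma.** -/
theorem pert (A Q : Matrix I I K) (hAQ : A * Q = 1) (D : ι → Matrix I I K) (m : ι → ℕ) (L : ℕ)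
    (hm : Function.Injective m) (hL : ∀ f, L ≤ m f) (hU : ∀ f, m f < 2 * L) (T E : Finset (I × I))
    (hT : ∀ t ∈ T, Q t.1 t.2 ≠ 0 ∨ ∃ f, (Q * D f * Q) t.1 t.2 ≠ 0) (hE : ∀ t ∈ E, A t.1 t.2 ≠ 0)
    (S : Finset K) (hS : (1 + T.card + E.card) * (2 * L * Fintype.card I) < S.card) :
    ∃ s ∈ S, (A + ∑ f, s ^ m f • D f).det ≠ 0 ∧
      (∀ t ∈ T, (A + ∑ f, s ^ m f • D f).adjugate t.1 t.2 ≠ 0) ∧
      ∀ t ∈ E, (A + ∑ f, s ^ m f • D f) t.1 t.2 ≠ 0 := by
  classical
  have hm0 : ∀ f, m f ≠ 0 := fun f => by have := hL f; have := hU f; omega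
  have hdet : A.det ≠ 0 := by
    intro h0
    have := congrArg Matrix.det hAQ
    rw [Matrix.det_mul, h0, zero_mul, Matrix.det_one] at this
    exact zero_ne_one this
  set F : K[X] := (AP A D m).det * (∏ t ∈ T, (AP A D m).adjugate t.1 t.2) * ∏ t ∈ E, AP A D m t.1 t.2 with hF
  have hF0 : F ≠ 0 := by
    rw [hF]
    refine mul_ne_zero (mul_ne_zero ?_ ?_) ?_
    · intro h0
      have h1 := AP_det_eval A D m 0
      rw [h0, AP_zero A D m hm0, eval_zero] at h1
      exact hdet h1.symm
    · rw [Finset.prod_ne_zero_iff]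
      intro t ht
      exact adj_ne_zero A Q hAQ D m L hm hL hU t.1 t.2 (hT t ht)
    · rw [Finset.prod_ne_zero_iff]
      intro t ht h0
      have h1 := AP_entry_eval A D m 0 t.1 t.2
      rw [h0, AP_zero A D m hm0, eval_zero] at h1
      exact hE t ht h1.symm
  have hle : ∀ f, m f ≤ 2 * L := fun f => (hU f).le
  have hdeg : F.natDegree ≤ (1 + T.card + E.card) * (2 * L * Fintype.card I) := by
    rw [hF]
    refine (natDegree_mul_le).trans ?_
    have h1 : ((AP A D m).det * ∏ t ∈ T, (AP A D m).adjugate t.1 t.2).natDegree ≤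
        (1 + T.card) * (2 * L * Fintype.card I) := by
      refine (natDegree_mul_le).trans ?_
      have h2 := natDegree_det_le' (AP A D m) (2 * L) (AP_degree A D m (2 * L) hle)
      have h3 : (∏ t ∈ T, (AP A D m).adjugate t.1 t.2).natDegree ≤ T.card * (2 * L * Fintype.card I) := by
        refine (natDegree_prod_le _ _).trans ?_
        refine (Finset.sum_le_card_nsmul _ _ (2 * L * Fintype.card I) (fun t _ => ?_)).trans ?_
        · exact natDegree_adj_le _ _ (AP_degree A D m (2 * L) hle) _ _
        · rw [smul_eq_mul]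
      rw [add_mul, one_mul]
      exact Nat.add_le_add h2 h3
    have h4 : (∏ t ∈ E, AP A D m t.1 t.2).natDegree ≤ E.card * (2 * L * Fintype.card I) := by
      refine (natDegree_prod_le _ _).trans ?_
      refine (Finset.sum_le_card_nsmul _ _ (2 * L * Fintype.card I) (fun t _ => ?_)).trans ?_
      · refine (AP_degree A D m (2 * L) hle _ _).trans ?_
        have : Nonempty I := ⟨t.1⟩
        exact Nat.le_mul_of_pos_right _ Fintype.card_pos
      · rw [smul_eq_mul]
    rw [add_mul (1 + T.card)]
    exact Nat.add_le_add h1 h4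
  have hex : ∃ s ∈ S, F.eval s ≠ 0 := by
    by_contra hcon
    push Not at hcon
    exact hF0 (eq_zero_of_natDegree_lt_card_of_eval_eq_zero' F S hcon (lt_of_le_of_lt hdeg hS))
  obtain ⟨s, hs, hsF⟩ := hex
  rw [hF, eval_mul, eval_mul, eval_prod, eval_prod] at hsF
  have h1 := left_ne_zero_of_mul (left_ne_zero_of_mul hsF)
  have h2 := right_ne_zero_of_mul (left_ne_zero_of_mul hsF)
  have h3 := right_ne_zero_of_mul hsF
  rw [Finset.prod_ne_zero_iff] at h2 h3
  refine ⟨s, hs, ?_, ?_, ?_⟩
  · rw [← AP_det_eval]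
    exact h1
  · intro t ht
    rw [← AP_adj_eval]
    exact h2 t ht
  · intro t ht
    rw [← AP_entry_eval]
    exact h3 t ht

end

end Pool.Agent.Lib.MP_0087d5_lcF
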