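import Mathlib

/-!
# The bordered matrix with dummies switched off

`bord U J B` is the matrix with the blocks `0`, `U`, `- Uᵀ`, `B`, where the dummies outside `J` are switched off
(their rows and columns are those of the identity matrix).
-/

set_option autoImplicit false
set_option linter.unusedSectionVars false

namespace Pool.Agent.FRC

open Finset Matrix

variable {F : Type} [Field F] {V Dl : Type} [Fintype V] [DecidableEq V] [Fintype Dl] [DecidableEq Dl]

/-- The bordered matrix; the dummies outside `J` are switched off. -/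
def bord (U : Matrix Dl V F) (J : Finset Dl) (B : Matrix V V F) : Matrix (Dl ⊕ V) (Dl ⊕ V) F :=
  fromBlocks (diagonal fun d => if d ∈ J then 0 else 1) (of fun d v => if d ∈ J then U d v else 0)
    (of fun v d => if d ∈ J then - U d v else 0) B

/-- The indices which are not switched off. -/
def On (J : Finset Dl) : Dl ⊕ V → Prop
  | Sum.inl d => d ∈ J
  | Sum.inr _ => True

/-- The projection to the indices which are not switched off. -/
def prj (V : Type) [DecidableEq V] (F : Type) [Field F] (J : Finset Dl) : Matrix (Dl ⊕ V) (Dl ⊕ V) F :=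
  fromBlocks (diagonal fun d => if d ∈ J then 1 else 0) 0 0 1

/-- The part of the matrix which is not switched off. -/
def core (U : Matrix Dl V F) (J : Finset Dl) (B : Matrix V V F) : Matrix (Dl ⊕ V) (Dl ⊕ V) F :=
  fromBlocks 0 (of fun d v => if d ∈ J then U d v else 0) (of fun v d => if d ∈ J then - U d v else 0) B

theorem prj_bord (U : Matrix Dl V F) (J : Finset Dl) (B : Matrix V V F) :
    prj V F J * bord U J B = core U J B := by
  unfold prj bord core
  rw [fromBlocks_multiply]
  congr 1
  · rw [Matrix.zero_mul, add_zero, diagonal_mul_diagonal]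
    ext d d'
    rw [diagonal_apply]
    by_cases h : d ∈ J <;> simp [h]
  · rw [Matrix.zero_mul, add_zero]
    ext d v
    rw [diagonal_mul]
    by_cases h : d ∈ J <;> simp [h]
  · rw [Matrix.zero_mul, zero_add, Matrix.one_mul]
  · rw [Matrix.zero_mul, zero_add, Matrix.one_mul]

theorem bord_prj (U : Matrix Dl V F) (J : Finset Dl) (B : Matrix V V F) :
    bord U J B * prj V F J = core U J B := by
  unfold prj bord core
  rw [fromBlocks_multiply]
  congr 1
  · rw [Matrix.mul_zero, add_zero, diagonal_mul_diagonal]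
    ext d d'
    rw [diagonal_apply]
    by_cases h : d ∈ J <;> simp [h]
  · rw [Matrix.mul_zero, zero_add, Matrix.mul_one]
  · rw [Matrix.mul_zero, add_zero]
    ext v d
    rw [mul_diagonal]
    by_cases h : d ∈ J <;> simp [h]
  · rw [Matrix.mul_zero, zero_add, Matrix.mul_one]

theorem core_transpose (U : Matrix Dl V F) (J : Finset Dl) (B : Matrix V V F) (hB : Bᵀ = -B) :
    (core U J B)ᵀ = - core U J B := by
  unfold core
  rw [fromBlocks_transpose, fromBlocks_neg, hB]
  congr 1
  · simp
  · ext d v
    by_cases h : d ∈ J <;> simp [h]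
  · ext v d
    by_cases h : d ∈ J <;> simp [h]

theorem prj_transpose (J : Finset Dl) : (prj V F J)ᵀ = prj V F J := by
  unfold prj
  rw [fromBlocks_transpose]
  simp

section Inverse

variable {U : Matrix Dl V F} {J : Finset Dl} {B : Matrix V V F} {Q : Matrix (Dl ⊕ V) (Dl ⊕ V) F}

theorem core_mul (hAQ : bord U J B * Q = 1) : core U J B * Q = prj V F J := by
  rw [← prj_bord, mul_assoc, hAQ, mul_one]

theorem mul_core (hAQ : bord U J B * Q = 1) : Q * core U J B = prj V F J := by
  rw [← bord_prj, ← mul_assoc, mul_eq_one_comm.1 hAQ, one_mul]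

theorem prj_comm (hAQ : bord U J B * Q = 1) : prj V F J * Q = Q * prj V F J := by
  rw [← mul_core hAQ, mul_assoc, core_mul hAQ, mul_core hAQ]

theorem prj_mul_transpose (hB : Bᵀ = -B) (hAQ : bord U J B * Q = 1) :
    (prj V F J * Q)ᵀ = - (prj V F J * Q) := by
  have h1 : Qᵀ * core U J B = - prj V F J := by
    have := congrArg Matrix.transpose (core_mul hAQ)
    rw [transpose_mul, core_transpose U J B hB, prj_transpose, Matrix.mul_neg] at this
    rw [← this, neg_neg]
  have h2 : Qᵀ * prj V F J = - (prj V F J * Q) := by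
    rw [← core_mul hAQ, ← mul_assoc, h1, Matrix.neg_mul, core_mul hAQ]
  rw [transpose_mul, prj_transpose, h2]

theorem prj_mul_apply (M : Matrix (Dl ⊕ V) (Dl ⊕ V) F) (i j : Dl ⊕ V) (hi : On J i) :
    (prj V F J * M) i j = M i j := by
  unfold prj
  rw [Matrix.mul_apply, Fintype.sum_sum_type]
  rcases i with d | v
  · have hd : d ∈ J := hi
    simp [diagonal_apply, hd]
  · simp [Matrix.one_apply]

theorem mul_prj_apply (M : Matrix (Dl ⊕ V) (Dl ⊕ V) F) (i j : Dl ⊕ V) (hj : On J j) :
    (M * prj V F J) i j = M i j := by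
  unfold prj
  rw [Matrix.mul_apply, Fintype.sum_sum_type]
  rcases j with d | v
  · have hd : d ∈ J := hj
    simp [diagonal_apply, hd]
  · simp [Matrix.one_apply]

theorem prj_mul_apply_off (M : Matrix (Dl ⊕ V) (Dl ⊕ V) F) (d : Dl) (j : Dl ⊕ V) (hd : d ∉ J) :
    (prj V F J * M) (Sum.inl d) j = 0 := by
  unfold prj
  rw [Matrix.mul_apply, Fintype.sum_sum_type]
  simp [diagonal_apply, hd]

/-- The inverse is skew symmetric on the indices which are on. -/
theorem Q_skew (hB : Bᵀ = -B) (hAQ : bord U J B * Q = 1) (i j : Dl ⊕ V) (hi : On J i) (hj : On J j) :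
    Q i j = - Q j i := by
  have h := congrFun (congrFun (prj_mul_transpose hB hAQ) j) i
  rw [transpose_apply, neg_apply, prj_mul_apply _ _ _ hi, prj_mul_apply _ _ _ hj] at h
  exact h

theorem Q_diag (h2 : (2 : F) ≠ 0) (hB : Bᵀ = -B) (hAQ : bord U J B * Q = 1) (i : Dl ⊕ V) (hi : On J i) :
    Q i i = 0 := by
  have h := Q_skew hB hAQ i i hi hi
  have h3 : (2 : F) * Q i i = 0 := by
    rw [two_mul]
    nth_rw 1 [h]
    exact neg_add_cancel _
  exact (mul_eq_zero.1 h3).resolve_left h2

theorem Q_off (hAQ : bord U J B * Q = 1) (d : Dl) (hd : d ∉ J) (v : V) : Q (Sum.inl d) (Sum.inr v) = 0 := by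
  have h := congrFun (congrFun (prj_comm hAQ) (Sum.inl d)) (Sum.inr v)
  rw [prj_mul_apply_off _ _ _ hd, mul_prj_apply (J := J) Q (Sum.inl d) (Sum.inr v) trivial] at h
  exact h.symm

end Inverse

end Pool.Agent.FRC
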